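import Mathlib
import Pool.Agent.H9.Danz2

set_option autoImplicit false

namespace Pool.Agent.Results.MP_a382a5_co.Lower

abbrev E (d : ℕ) := EuclideanSpace ℝ (Fin d)

/-- Some line meets every closed unit ball with centre in `S`. -/
def Transversal {d : ℕ} (S : Finset (E d)) : Prop :=
  ∃ p v : E d, v ≠ 0 ∧ ∀ c ∈ S, ∃ t : ℝ, dist (p + t • v) c ≤ 1

/-- The closed unit balls with centres in `S` are pairwise disjoint. -/
def Disj {d : ℕ} (S : Finset (E d)) : Prop := ∀ x ∈ S, ∀ y ∈ S, x ≠ y → 2 < dist x y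

theorem result :
    ∀ d : ℕ, 2 ≤ d → ∃ S : Finset (E d), S.card = 4 * d - 4 ∧ Disj S ∧
      (∀ T ⊆ S, T.card < S.card → Transversal T) ∧ ¬ Transversal S := by
  intro d hd
  obtain ⟨n, rfl⟩ : ∃ n, d = n + 2 := ⟨d - 2, by omega⟩
  obtain ⟨S, a, b, c, e⟩ := Pool.Agent.H9.Danz.main n
  exact ⟨S, by omega, b, c, e⟩

end Pool.Agent.Results.MP_a382a5_co.Lower
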